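import Pool.Agent.Helper22.IndepInt
import Pool.Agent.Helper11.Ro.TFAE

/-!
# The standard conjecture D and the finite generation of the groups of integral cycle classes
-/

universe u v w t

open CategoryTheory

namespace Pool.Agent.Helper11.In

open Pool.Agent.Helper10 hiding IsAlgAut parityPart
open SmProjVar Pool.Agent.Helper11 Pool.Agent.Helper11.Obs Pool.Agent.Helper11.Ro
  Pool.Agent.Helper22.IndepInt

variable {k : Type u} [Field k] {K : Type v} [Field K] [CharZero K]
  (W : WeilCohomology.{u, v, w} k K) {F : Subfield K} {P : ℕ} {V : Fin P → SmProjVar k}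
  {E : Subspaces W.toCohomologyData V}

/-- `H(Y)` has a basis, as a finite-dimensional vector space -/
lemma exists_basis (Y : SmProjVar k) : ∃ m : ℕ, Nonempty (Module.Basis (Fin m) K (W.H Y)) := by
  have := (W.graded Y).finite
  exact ⟨_, ⟨Module.finBasis K (W.H Y)⟩⟩

/-- **The standard conjecture D and finite generation.** -/
theorem integral_criterion (hE : ∀ c, IsPieceOver W.toCohomologyData F (V c) (E c))
    (hs : ∀ c, IsSpanned W.toCohomologyData V E (V c))
    (ha : AreAnisotropicOver.{u, v, w, t} W.toCohomologyData V E F) (O : ValuationSubring K)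
    (hO : IsDenseSubfield F O) :
    [∀ Y, IsSpanned W.toCohomologyData V E Y → W.StandardD Y,
      ∀ Y, IsSpanned W.toCohomologyData V E Y → ∀ (m : ℕ) (b : Module.Basis (Fin m) K (W.H Y)),
        HasFGIntegralVectors O (cycleSpan W.toCohomologyData F Y) b,
      ∀ Y, IsSpanned W.toCohomologyData V E Y → ∃ (m : ℕ) (b : Module.Basis (Fin m) K (W.H Y)),
        HasFGIntegralVectors O (cycleSpan W.toCohomologyData F Y) b].TFAE := by
  have h0 := (criterion.{u, v, w, t} W hE hs ha).out 0 1
  tfae_have 1 → 2 := fun h Y hY m b =>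
    fg_of_independent hO b ((h0.1 h) Y hY)
  tfae_have 2 → 3 := by
    intro h Y hY
    obtain ⟨m, ⟨b⟩⟩ := exists_basis W Y
    exact ⟨m, b, h Y hY m b⟩
  tfae_have 3 → 1 := by
    intro h
    refine h0.2 fun Y hY => ?_
    obtain ⟨m, b, hb⟩ := h Y hY
    exact independent_of_fg hO b hb
  tfae_finish

end Pool.Agent.Helper11.In
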