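import Mathlib

/-!
# Vectors over a subfield with integral coordinates: definitions
-/

universe v w

namespace Pool.Agent.Helper11.In

variable {K : Type v} [Field K]

/-- `O` is a discrete valuation ring with fraction field `K`, and the subfield `F` is dense in `K`
for the topology given by `O`. (For instance, `K` is the field of `p`-adic numbers, `O` the ring of
`p`-adic integers, and `F` the field of rational numbers.) -/
structure IsDenseSubfield (F : Subfield K) (O : ValuationSubring K) : Prop where
  discrete : IsDiscreteValuationRing O
  dense : ∀ x a : K, a ≠ 0 → ∃ y ∈ F, ∃ z ∈ O, x - y = a * z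

/-- The ring `F ∩ O` of the elements of the subfield `F` which lie in the valuation ring `O`. -/
def integralPart (F : Subfield K) (O : ValuationSubring K) : Subring K :=
  F.toSubring ⊓ O.toSubring

variable {M : Type w} [AddCommGroup M] [Module K M]

/-- The elements of the `F`-subspace `A` of `M` which lie in the `O`-lattice with basis `b`, i.e.
whose coordinates with respect to the `K`-basis `b` of `M` are in `O`. They form a module over
`F ∩ O`. -/
def integralVectors {F : Subfield K} (O : ValuationSubring K) (A : Submodule F M) {m : ℕ}
    (b : Module.Basis (Fin m) K M) : Submodule (integralPart F O) M where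
  carrier := {z | z ∈ A ∧ ∀ i, b.repr z i ∈ O}
  add_mem' := by
    rintro x y ⟨hx, hx'⟩ ⟨hy, hy'⟩
    refine ⟨A.add_mem hx hy, fun i => ?_⟩
    rw [map_add]
    exact O.add_mem _ _ (hx' i) (hy' i)
  zero_mem' := ⟨A.zero_mem, fun i => by rw [map_zero]; exact O.zero_mem⟩
  smul_mem' := by
    rintro ⟨c, hcF, hcO⟩ x ⟨hx, hx'⟩
    refine ⟨A.smul_mem (⟨c, hcF⟩ : F) hx, fun i => ?_⟩
    change b.repr (c • x) i ∈ O
    rw [map_smul]
    exact O.mul_mem _ _ hcO (hx' i)

/-- The elements of `A` which lie in the lattice form a finitely generated module. -/
def HasFGIntegralVectors {F : Subfield K} (O : ValuationSubring K) (A : Submodule F M) {m : ℕ}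
    (b : Module.Basis (Fin m) K M) : Prop :=
  (integralVectors O A b).FG

end Pool.Agent.Helper11.In
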